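import Pool.Agent.TH660.RB.Common

/-!
# MP_ad21dd_lc: the unweighted red-blue s-t cut problem in undirected graphs is NP-complete

The reduction is from the clique problem `(H, k)`. For every edge `uv` of `H` there are a red
path of length two from `s` to `u`, a red path of length two from `s` to `v`, and the red edge `uv`.
For a set `K` of vertices of `H` on the side of `s`, these five edges contribute (at least, and with
a suitable choice of the inner vertices of the paths exactly) `0` red cut edges if `u` and `v` are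
both in `K`, and `2` otherwise. Every vertex of `H` is joined to `t` by a blue edge. So there is a
cut with at most `2 |E(H)| - k (k - 1)` red and at most `k` blue edges if and only if `H` has a
clique with `k` vertices. The graph has no parallel edges and no loops.
-/

set_option autoImplicit false

namespace Pool.Agent.Results.MP_ad21dd_lc.RedBlueCutNPComplete

open Pool.Agent.NPC Pool.Agent.NPC.H634R2 Pool.Agent.H673R2 Pool.Agent.TH660.RB

/-- A list of coloured edges: `((u, v), true)` is a red edge `uv` and `((u, v), false)` is a blue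
edge `uv`. -/
abbrev CEdges : Type := List ((ℕ × ℕ) × Bool)

/-- An instance `((V, E), (s, t), (r, b))`: the list `V` of the vertices (which are natural
numbers), the list `E` of the coloured edges, the two vertices `s` and `t`, and the two bounds. -/
abbrev Inst : Type := (List ℕ × CEdges) × (ℕ × ℕ) × (ℕ × ℕ)

/-- The instance is well formed: `V` and `E` describe a finite simple graph (the vertices are listed
once, edges join two distinct vertices, no edge is listed twice, so that every edge has just one of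
the two colours), and `s`, `t` are distinct vertices. -/
def Valid (I : Inst) : Prop :=
  IsGraph I.1.1 (I.1.2.map Prod.fst) ∧ I.2.1.1 ∈ I.1.1 ∧ I.2.1.2 ∈ I.1.1 ∧ I.2.1.1 ≠ I.2.1.2

/-- Exactly one end of the edge `e` is in `X`. -/
def Crosses (X : Finset ℕ) (e : ℕ × ℕ) : Prop := ¬ (e.1 ∈ X ↔ e.2 ∈ X)

instance (X : Finset ℕ) (e : ℕ × ℕ) : Decidable (Crosses X e) :=
  inferInstanceAs (Decidable (¬ _))

/-- The number of edges of colour `c` in the cut `δ(X)`. -/
def cutSize (E : CEdges) (X : Finset ℕ) (c : Bool) : ℕ :=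
  (E.filter (fun e => e.2 = c ∧ Crosses X e.1)).length

/-- The question: is there a set `X` of vertices with `s ∈ X`, `t ∉ X` such that `δ(X)` contains at
most `r` red and at most `b` blue edges? -/
def HasCut (I : Inst) : Prop :=
  ∃ X : Finset ℕ, (∀ v ∈ X, v ∈ I.1.1) ∧ I.2.1.1 ∈ X ∧ I.2.1.2 ∉ X ∧
    cutSize I.1.2 X true ≤ I.2.2.1 ∧ cutSize I.1.2 X false ≤ I.2.2.2

/-! ### The reduction -/

/-- the red edges -/
def reds (E : List (ℕ × ℕ)) : CEdges :=
  E.zipIdx.map (fun p => ((0, 6 * p.2 + 3), true)) ++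
  (E.zipIdx.map (fun p => ((6 * p.2 + 3, 3 * p.1.1 + 2), true)) ++
  (E.zipIdx.map (fun p => ((0, 6 * p.2 + 6), true)) ++
  (E.zipIdx.map (fun p => ((6 * p.2 + 6, 3 * p.1.2 + 2), true)) ++
  E.map (fun e => ((3 * e.1 + 2, 3 * e.2 + 2), true)))))

/-- the blue edges -/
def blues (V : List ℕ) : CEdges := V.map (fun v => ((3 * v + 2, 1), false))

/-- the vertices -/
def verts (V : List ℕ) (E : List (ℕ × ℕ)) : List ℕ :=
  0 :: 1 :: (V.map (fun v => 3 * v + 2) ++
    (E.zipIdx.map (fun p => 6 * p.2 + 3) ++ E.zipIdx.map (fun p => 6 * p.2 + 6)))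

/-- a no-instance -/
def noInst : Inst := (([0, 1], [((0, 1), true)]), (0, 1), (0, 0))

/-- the reduction -/
def red (J : (List ℕ × List (ℕ × ℕ)) × ℕ) : Inst :=
  if J.2 * (J.2 - 1) ≤ 2 * J.1.2.length then
    ((verts J.1.1 J.1.2, reds J.1.2 ++ blues J.1.1), (0, 1),
      (2 * J.1.2.length - J.2 * (J.2 - 1), J.2))
  else noInst

theorem red_poly : Poly red := by
  unfold red
  refine Poly.ite (Poly.decide_le (by fun_prop) (by fun_prop)) ?_ (NPC.Poly.const _)
  unfold verts reds blues
  fun_prop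

/-! ### Validity -/

theorem noInst_valid : Valid noInst := by
  refine ⟨⟨by decide, by decide, by decide⟩, by decide, by decide, by decide⟩

theorem nodup_zipIdx_map {α β : Type} (l : List α) (f : α × ℕ → β)
    (hf : ∀ x y : α × ℕ, f x = f y → x.2 = y.2) : (l.zipIdx.map f).Nodup := by
  refine List.Nodup.map_on ?_ ?_
  · intro x hx y hy h
    have h2 := hf x y h
    obtain ⟨a, i⟩ := x
    obtain ⟨b, j⟩ := y
    simp only at h2
    subst h2
    rw [List.mem_zipIdx_iff_getElem?] at hx hy
    simp only at hx hy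
    rw [hx] at hy
    simp only [Option.some.injEq] at hy
    rw [hy]
  · have h1 : (l.zipIdx.map Prod.snd).Nodup := by
      rw [List.zipIdx_map_snd]
      exact List.nodup_range'
    exact List.Nodup.of_map _ h1

theorem verts_nodup {V : List ℕ} (E : List (ℕ × ℕ)) (hV : V.Nodup) : (verts V E).Nodup := by
  unfold verts
  rw [List.nodup_cons, List.nodup_cons, List.nodup_append, List.nodup_append]
  refine ⟨?_, ?_, ?_, ⟨?_, ?_, ?_⟩, ?_⟩
  · simp only [List.mem_cons, List.mem_append, List.mem_map, Prod.exists, not_or, not_exists,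
      not_and]
    refine ⟨by omega, fun x _ => by omega, fun x i h => by omega, fun x i h => by omega⟩
  · simp only [List.mem_append, List.mem_map, Prod.exists, not_or, not_exists, not_and]
    refine ⟨fun x _ => by omega, fun x i h => by omega, fun x i h => by omega⟩
  · exact List.Nodup.map (fun a b (h : 3 * a + 2 = 3 * b + 2) => by omega) hV
  · exact nodup_zipIdx_map _ _ (fun x y h => by omega)
  · exact nodup_zipIdx_map _ _ (fun x y h => by omega)
  · intro a ha b hb
    simp only [List.mem_map] at ha hb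
    obtain ⟨x, _, rfl⟩ := ha
    obtain ⟨y, _, rfl⟩ := hb
    omega
  · intro a ha b hb
    simp only [List.mem_append, List.mem_map] at ha hb
    obtain ⟨x, _, rfl⟩ := ha
    rcases hb with ⟨y, _, rfl⟩ | ⟨y, _, rfl⟩ <;> omega

theorem fst_map_eq (V : List ℕ) (E : List (ℕ × ℕ)) : (reds E ++ blues V).map Prod.fst =
    E.zipIdx.map (fun p => (0, 6 * p.2 + 3)) ++
    (E.zipIdx.map (fun p => (6 * p.2 + 3, 3 * p.1.1 + 2)) ++
    (E.zipIdx.map (fun p => (0, 6 * p.2 + 6)) ++
    (E.zipIdx.map (fun p => (6 * p.2 + 6, 3 * p.1.2 + 2)) ++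
    (E.map (fun e => (3 * e.1 + 2, 3 * e.2 + 2)) ++ V.map (fun v => (3 * v + 2, 1)))))) := by
  unfold reds blues
  simp only [List.map_append, List.map_map, List.append_assoc]
  rfl

theorem isGraph_red {V : List ℕ} {E : List (ℕ × ℕ)} (hG : IsGraph V E) :
    IsGraph (verts V E) ((reds E ++ blues V).map Prod.fst) := by
  rw [isGraph_iff] at hG ⊢
  obtain ⟨hV, hE, hn, hs⟩ := hG
  have hmem : ∀ p ∈ E.zipIdx, p.1 ∈ E := fun p hp => List.fst_mem_of_mem_zipIdx hp
  refine ⟨verts_nodup E hV, ?_, ?_, ?_⟩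
  · rw [fst_map_eq]
    intro e he
    simp only [List.mem_append, List.mem_map] at he
    unfold verts
    simp only [List.mem_cons, List.mem_append, List.mem_map]
    rcases he with ⟨p, hp, rfl⟩ | ⟨p, hp, rfl⟩ | ⟨p, hp, rfl⟩ | ⟨p, hp, rfl⟩ | ⟨p, hp, rfl⟩ |
      ⟨v, hv, rfl⟩
    · exact ⟨Or.inl rfl, Or.inr (Or.inr (Or.inr (Or.inl ⟨p, hp, rfl⟩))), by simp only; omega⟩
    · exact ⟨Or.inr (Or.inr (Or.inr (Or.inl ⟨p, hp, rfl⟩))),
        Or.inr (Or.inr (Or.inl ⟨p.1.1, (hE _ (hmem p hp)).1, rfl⟩)), by simp only; omega⟩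
    · exact ⟨Or.inl rfl, Or.inr (Or.inr (Or.inr (Or.inr ⟨p, hp, rfl⟩))), by simp only; omega⟩
    · exact ⟨Or.inr (Or.inr (Or.inr (Or.inr ⟨p, hp, rfl⟩))),
        Or.inr (Or.inr (Or.inl ⟨p.1.2, (hE _ (hmem p hp)).2.1, rfl⟩)), by simp only; omega⟩
    · refine ⟨Or.inr (Or.inr (Or.inl ⟨p.1, (hE _ hp).1, rfl⟩)),
        Or.inr (Or.inr (Or.inl ⟨p.2, (hE _ hp).2.1, rfl⟩)), ?_⟩
      have := (hE _ hp).2.2
      simp only
      omega
    · exact ⟨Or.inr (Or.inr (Or.inl ⟨v, hv, rfl⟩)), Or.inr (Or.inl rfl), by simp only; omega⟩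
  · rw [fst_map_eq]
    simp only [List.nodup_append]
    refine ⟨nodup_zipIdx_map _ _ ?_, ⟨nodup_zipIdx_map _ _ ?_, ⟨nodup_zipIdx_map _ _ ?_,
      ⟨nodup_zipIdx_map _ _ ?_, ⟨List.Nodup.map ?_ hn, List.Nodup.map ?_ hV, ?_⟩, ?_⟩, ?_⟩, ?_⟩, ?_⟩
    · intro x y h; simp only [Prod.mk.injEq] at h; omega
    · intro x y h; simp only [Prod.mk.injEq] at h; omega
    · intro x y h; simp only [Prod.mk.injEq] at h; omega
    · intro x y h; simp only [Prod.mk.injEq] at h; omega
    · intro x y h
      simp only [Prod.mk.injEq] at h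
      exact Prod.ext (by omega) (by omega)
    · intro x y h; simp only [Prod.mk.injEq] at h; omega
    · intro a ha b hb
      simp only [List.mem_map] at ha hb
      obtain ⟨x, _, rfl⟩ := ha
      obtain ⟨y, _, rfl⟩ := hb
      simp only [ne_eq, Prod.mk.injEq]; omega
    · intro a ha b hb
      simp only [List.mem_append, List.mem_map] at ha hb
      obtain ⟨x, _, rfl⟩ := ha
      rcases hb with ⟨y, _, rfl⟩ | ⟨y, _, rfl⟩ <;> (simp only [ne_eq, Prod.mk.injEq]; omega)
    · intro a ha b hb
      simp only [List.mem_append, List.mem_map] at ha hb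
      obtain ⟨x, _, rfl⟩ := ha
      rcases hb with ⟨y, _, rfl⟩ | ⟨y, _, rfl⟩ | ⟨y, _, rfl⟩ <;>
        (simp only [ne_eq, Prod.mk.injEq]; omega)
    · intro a ha b hb
      simp only [List.mem_append, List.mem_map] at ha hb
      obtain ⟨x, _, rfl⟩ := ha
      rcases hb with ⟨y, _, rfl⟩ | ⟨y, _, rfl⟩ | ⟨y, _, rfl⟩ | ⟨y, _, rfl⟩ <;>
        (simp only [ne_eq, Prod.mk.injEq]; omega)
    · intro a ha b hb
      simp only [List.mem_append, List.mem_map] at ha hb
      obtain ⟨x, _, rfl⟩ := ha
      rcases hb with ⟨y, _, rfl⟩ | ⟨y, _, rfl⟩ | ⟨y, _, rfl⟩ | ⟨y, _, rfl⟩ | ⟨y, _, rfl⟩ <;>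
        (simp only [ne_eq, Prod.mk.injEq]; omega)
  · rw [fst_map_eq]
    intro e he he'
    simp only [List.mem_append, List.mem_map] at he he'
    rcases he with ⟨p, hp, rfl⟩ | ⟨p, hp, rfl⟩ | ⟨p, hp, rfl⟩ | ⟨p, hp, rfl⟩ | ⟨p, hp, rfl⟩ |
      ⟨v, hv, rfl⟩ <;>
    rcases he' with ⟨q, hq, h⟩ | ⟨q, hq, h⟩ | ⟨q, hq, h⟩ | ⟨q, hq, h⟩ | ⟨q, hq, h⟩ |
      ⟨w, hw, h⟩ <;>
    simp only [Prod.mk.injEq] at h <;> try omega
    have h1 : q = (p.2, p.1) := Prod.ext (by simp only; omega) (by simp only; omega)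
    exact hs p hp (h1 ▸ hq)

/-! ### Counting the cut edges -/

theorem cutSize_append (A B : CEdges) (X : Finset ℕ) (c : Bool) :
    cutSize (A ++ B) X c = cutSize A X c + cutSize B X c := by
  unfold cutSize
  rw [List.filter_append, List.length_append]

theorem cutSize_map {α : Type} (l : List α) (f : α → (ℕ × ℕ) × Bool) (X : Finset ℕ) (c : Bool) :
    cutSize (l.map f) X c = l.countP (fun a => decide ((f a).2 = c ∧ Crosses X (f a).1)) := by
  unfold cutSize
  rw [← List.countP_eq_length_filter, List.countP_map]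
  rfl

theorem sum_le {α : Type} (l : List α) (p₁ p₂ p₃ p₄ p₅ q : α → Bool)
    (h : ∀ a ∈ l, 2 * (q a).toNat ≤
      (p₁ a).toNat + ((p₂ a).toNat + ((p₃ a).toNat + ((p₄ a).toNat + (p₅ a).toNat)))) :
    2 * l.countP q ≤ l.countP p₁ + (l.countP p₂ + (l.countP p₃ + (l.countP p₄ + l.countP p₅))) := by
  induction l with
  | nil => simp
  | cons a l ih =>
    have h1 := h a (by simp)
    have h2 := ih (fun b hb => h b (by simp [hb]))
    simp only [List.countP_cons]
    cases hq : q a <;> cases h1' : p₁ a <;> cases h2' : p₂ a <;> cases h3' : p₃ a <;>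
      cases h4' : p₄ a <;> cases h5' : p₅ a <;> simp_all <;> omega

theorem sum_ge {α : Type} (l : List α) (p₁ p₂ p₃ p₄ p₅ q : α → Bool)
    (h : ∀ a ∈ l, (p₁ a).toNat + ((p₂ a).toNat + ((p₃ a).toNat + ((p₄ a).toNat + (p₅ a).toNat))) ≤
      2 * (q a).toNat) :
    l.countP p₁ + (l.countP p₂ + (l.countP p₃ + (l.countP p₄ + l.countP p₅))) ≤ 2 * l.countP q := by
  induction l with
  | nil => simp
  | cons a l ih =>
    have h1 := h a (by simp)
    have h2 := ih (fun b hb => h b (by simp [hb]))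
    simp only [List.countP_cons]
    cases hq : q a <;> cases h1' : p₁ a <;> cases h2' : p₂ a <;> cases h3' : p₃ a <;>
      cases h4' : p₄ a <;> cases h5' : p₅ a <;> simp_all <;> omega

/-- the number of bad edges -/
theorem countP_bad (E : List (ℕ × ℕ)) (K : Finset ℕ) :
    E.countP (fun e => !(good K e)) + E.countP (good K) = E.length := by
  have h := List.length_eq_countP_add_countP (good K) (l := E)
  have h2 : E.countP (fun a => decide ¬ good K a = true) = E.countP (fun e => !(good K e)) := by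
    congr 1
    funext a
    cases good K a <;> rfl
  rw [h2] at h
  omega

theorem reds_true (E : List (ℕ × ℕ)) (X : Finset ℕ) : cutSize (reds E) X true =
    E.zipIdx.countP (fun p => decide (Crosses X (0, 6 * p.2 + 3))) +
    (E.zipIdx.countP (fun p => decide (Crosses X (6 * p.2 + 3, 3 * p.1.1 + 2))) +
    (E.zipIdx.countP (fun p => decide (Crosses X (0, 6 * p.2 + 6))) +
    (E.zipIdx.countP (fun p => decide (Crosses X (6 * p.2 + 6, 3 * p.1.2 + 2))) +
    E.zipIdx.countP (fun p => decide (Crosses X (3 * p.1.1 + 2, 3 * p.1.2 + 2)))))) := by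
  unfold reds
  rw [cutSize_append, cutSize_append, cutSize_append, cutSize_append, cutSize_map, cutSize_map,
    cutSize_map, cutSize_map, cutSize_map]
  rw [countP_zipIdx E (fun e => decide (Crosses X (3 * e.1 + 2, 3 * e.2 + 2)))]
  simp only [true_and]

theorem reds_false (E : List (ℕ × ℕ)) (X : Finset ℕ) : cutSize (reds E) X false = 0 := by
  unfold reds
  rw [cutSize_append, cutSize_append, cutSize_append, cutSize_append, cutSize_map, cutSize_map,
    cutSize_map, cutSize_map, cutSize_map]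
  simp

theorem blues_true (V : List ℕ) (X : Finset ℕ) : cutSize (blues V) X true = 0 := by
  unfold blues
  rw [cutSize_map]
  simp

theorem blues_false (V : List ℕ) (X : Finset ℕ) (h1 : 1 ∉ X) :
    cutSize (blues V) X false = V.countP (fun v => decide (3 * v + 2 ∈ X)) := by
  unfold blues
  rw [cutSize_map]
  congr 1
  funext v
  simp [Crosses, h1]

/-- the side of `s` belonging to a set `K` of vertices -/
def side (E : List (ℕ × ℕ)) (K : Finset ℕ) : Finset ℕ :=
  insert 0 (K.image (fun v => 3 * v + 2) ∪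
    (((E.zipIdx.filter (fun p => decide (p.1.1 ∈ K))).map (fun p => 6 * p.2 + 3)).toFinset ∪
    ((E.zipIdx.filter (fun p => decide (p.1.2 ∈ K))).map (fun p => 6 * p.2 + 6)).toFinset))

theorem mem_side_v (E : List (ℕ × ℕ)) (K : Finset ℕ) (v : ℕ) : 3 * v + 2 ∈ side E K ↔ v ∈ K := by
  unfold side
  simp only [Finset.mem_insert, Finset.mem_union, Finset.mem_image, List.mem_toFinset,
    List.mem_map]
  constructor
  · rintro (h | ⟨w, hw, h⟩ | ⟨p, _, h⟩ | ⟨p, _, h⟩)
    · omega
    · have : w = v := by omega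
      rwa [this] at hw
    · omega
    · omega
  · intro h
    exact Or.inr (Or.inl ⟨v, h, rfl⟩)

theorem mem_side_0 (E : List (ℕ × ℕ)) (K : Finset ℕ) : 0 ∈ side E K := by simp [side]

theorem mem_side_1 (E : List (ℕ × ℕ)) (K : Finset ℕ) : 1 ∉ side E K := by
  unfold side
  simp only [Finset.mem_insert, Finset.mem_union, Finset.mem_image, List.mem_toFinset,
    List.mem_map]
  rintro (h | ⟨w, _, h⟩ | ⟨p, _, h⟩ | ⟨p, _, h⟩) <;> omega

theorem zipIdx_inj {α : Type} {l : List α} {p q : α × ℕ} (hp : p ∈ l.zipIdx) (hq : q ∈ l.zipIdx)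
    (h : p.2 = q.2) : p = q := by
  obtain ⟨a, i⟩ := p
  obtain ⟨b, j⟩ := q
  simp only at h
  subst h
  rw [List.mem_zipIdx_iff_getElem?] at hp hq
  simp only at hp hq
  rw [hp] at hq
  simp only [Option.some.injEq] at hq
  rw [hq]

theorem mem_side_x {E : List (ℕ × ℕ)} (K : Finset ℕ) {p : (ℕ × ℕ) × ℕ} (hp : p ∈ E.zipIdx) :
    6 * p.2 + 3 ∈ side E K ↔ p.1.1 ∈ K := by
  unfold side
  simp only [Finset.mem_insert, Finset.mem_union, Finset.mem_image, List.mem_toFinset,
    List.mem_map, List.mem_filter, decide_eq_true_eq]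
  constructor
  · rintro (h | ⟨w, hw, h⟩ | ⟨q, ⟨hq, hK⟩, h⟩ | ⟨q, _, h⟩)
    · omega
    · omega
    · have := zipIdx_inj hq hp (by omega)
      rwa [this] at hK
    · omega
  · intro h
    exact Or.inr (Or.inr (Or.inl ⟨p, ⟨hp, h⟩, rfl⟩))

theorem mem_side_y {E : List (ℕ × ℕ)} (K : Finset ℕ) {p : (ℕ × ℕ) × ℕ} (hp : p ∈ E.zipIdx) :
    6 * p.2 + 6 ∈ side E K ↔ p.1.2 ∈ K := by
  unfold side
  simp only [Finset.mem_insert, Finset.mem_union, Finset.mem_image, List.mem_toFinset,
    List.mem_map, List.mem_filter, decide_eq_true_eq]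
  constructor
  · rintro (h | ⟨w, hw, h⟩ | ⟨q, _, h⟩ | ⟨q, ⟨hq, hK⟩, h⟩)
    · omega
    · omega
    · omega
    · have := zipIdx_inj hq hp (by omega)
      rwa [this] at hK
  · intro h
    exact Or.inr (Or.inr (Or.inr ⟨p, ⟨hp, h⟩, rfl⟩))

theorem side_verts {V : List ℕ} {E : List (ℕ × ℕ)} {K : Finset ℕ} (hK : ∀ v ∈ K, v ∈ V) :
    ∀ x ∈ side E K, x ∈ verts V E := by
  intro x hx
  unfold side at hx
  unfold verts
  simp only [Finset.mem_insert, Finset.mem_union, Finset.mem_image, List.mem_toFinset,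
    List.mem_map, List.mem_filter] at hx
  simp only [List.mem_cons, List.mem_append, List.mem_map]
  rcases hx with rfl | ⟨w, hw, rfl⟩ | ⟨q, ⟨hq, _⟩, rfl⟩ | ⟨q, ⟨hq, _⟩, rfl⟩
  · exact Or.inl rfl
  · exact Or.inr (Or.inr (Or.inl ⟨w, hK w hw, rfl⟩))
  · exact Or.inr (Or.inr (Or.inr (Or.inl ⟨q, hq, rfl⟩)))
  · exact Or.inr (Or.inr (Or.inr (Or.inr ⟨q, hq, rfl⟩)))

theorem correct {V : List ℕ} {E : List (ℕ × ℕ)} {k : ℕ} (hG : IsGraph V E) (hk : 2 ≤ k) :
    CLIQUE ((V, E), k) ↔ HasCut (red ((V, E), k)) := by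
  unfold red
  simp only
  constructor
  · rintro ⟨-, K, hKV, hKc, hK⟩
    simp only at hKV hKc hK
    have h1 := two_mul_countP_of_clique hG K hK
    rw [hKc] at h1
    have h2 := countP_bad E K
    rw [if_pos (by omega)]
    refine ⟨side E K, side_verts hKV, mem_side_0 E K, mem_side_1 E K, ?_, ?_⟩
    · simp only
      rw [cutSize_append, blues_true, reds_true, Nat.add_zero]
      refine (sum_ge E.zipIdx _ _ _ _ _ (fun p => !(good K p.1)) ?_).trans ?_
      · intro p hp
        simp only [Crosses, mem_side_0, mem_side_x K hp, mem_side_y K hp, mem_side_v, good]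
        by_cases ha : p.1.1 ∈ K <;> by_cases hb : p.1.2 ∈ K <;> simp [ha, hb]
      · rw [countP_zipIdx E (fun e => !(good K e))]
        omega
    · simp only
      rw [cutSize_append, reds_false, blues_false V _ (mem_side_1 E K), Nat.zero_add]
      simp only [mem_side_v]
      rw [List.countP_eq_length_filter, ← List.toFinset_card_of_nodup (hG.1.filter _), ← hKc]
      refine Finset.card_le_card fun v hv => ?_
      simp only [List.mem_toFinset, List.mem_filter, decide_eq_true_eq] at hv
      exact hv.2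
  · intro h
    by_cases hc : k * (k - 1) ≤ 2 * E.length
    · rw [if_pos hc] at h
      obtain ⟨X, -, h0, h1, hr, hb⟩ := h
      simp only at h0 h1 hr hb
      rw [cutSize_append, blues_true, reds_true, Nat.add_zero] at hr
      rw [cutSize_append, reds_false, blues_false V _ h1, Nat.zero_add] at hb
      set K : Finset ℕ := (V.filter (fun v => decide (3 * v + 2 ∈ X))).toFinset with hKdef
      have hKc : K.card ≤ k := by
        rw [hKdef, List.toFinset_card_of_nodup (hG.1.filter _), ← List.countP_eq_length_filter]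
        exact hb
      have hmem : ∀ v ∈ V, (v ∈ K ↔ 3 * v + 2 ∈ X) := by
        intro v hv
        rw [hKdef]
        simp only [List.mem_toFinset, List.mem_filter, decide_eq_true_eq]
        exact ⟨fun h => h.2, fun h => ⟨hv, h⟩⟩
      have h2 := sum_le E.zipIdx (fun p => decide (Crosses X (0, 6 * p.2 + 3)))
        (fun p => decide (Crosses X (6 * p.2 + 3, 3 * p.1.1 + 2)))
        (fun p => decide (Crosses X (0, 6 * p.2 + 6)))
        (fun p => decide (Crosses X (6 * p.2 + 6, 3 * p.1.2 + 2)))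
        (fun p => decide (Crosses X (3 * p.1.1 + 2, 3 * p.1.2 + 2)))
        (fun p => !(good K p.1)) ?_
      · rw [countP_zipIdx E (fun e => !(good K e))] at h2
        have h3 := countP_bad E K
        have h4 := clique_of_dense hG K hk hKc (by omega)
        refine ⟨hG, K, ?_, h4.1, h4.2⟩
        intro v hv
        rw [hKdef] at hv
        simp only [List.mem_toFinset, List.mem_filter] at hv
        exact hv.1
      · intro p hp
        have hpE : p.1 ∈ E := List.fst_mem_of_mem_zipIdx hp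
        have ha := hmem _ (hG.2.1 _ hpE).1
        have hb := hmem _ (hG.2.1 _ hpE).2.1
        simp only [Crosses, good, ha, hb]
        by_cases h5 : 3 * p.1.1 + 2 ∈ X <;> by_cases h6 : 3 * p.1.2 + 2 ∈ X <;>
          by_cases h7 : 6 * p.2 + 3 ∈ X <;> by_cases h8 : 6 * p.2 + 6 ∈ X <;>
          simp [h0, h5, h6, h7, h8]
    · rw [if_neg hc] at h
      obtain ⟨X, -, h0, h1, hr, -⟩ := h
      exfalso
      simp only [noInst] at h0 h1 hr
      simp [cutSize, Crosses, h0, h1] at hr

theorem hard : NPHardOn Valid HasCut := by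
  refine npHardOn_of hardPr_CLIQUE red_poly ?_ ?_
  · rintro ⟨⟨V, E⟩, k⟩ ⟨hG, hk⟩
    simp only at hG hk
    unfold red
    split
    · refine ⟨isGraph_red hG, ?_, ?_, ?_⟩
      · simp [verts]
      · simp [verts]
      · simp
    · exact noInst_valid
  · rintro ⟨⟨V, E⟩, k⟩ ⟨hG, hk⟩
    exact correct hG hk

/-! ### Membership in NP -/

/-- the number of cut edges, for a side given by a list -/
def cutSizeL (E : CEdges) (w : List ℕ) (c : Bool) : ℕ :=
  (E.filter (fun e => decide (e.2 = c) && (decide (e.1.1 ∈ w) ^^ decide (e.1.2 ∈ w)))).length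

theorem cutSizeL_eq (E : CEdges) (w : List ℕ) (c : Bool) :
    cutSizeL E w c = cutSize E w.toFinset c := by
  unfold cutSizeL cutSize
  congr 2
  funext e
  by_cases h0 : e.2 = c <;> by_cases h1 : e.1.1 ∈ w <;> by_cases h2 : e.1.2 ∈ w <;>
    simp [Crosses, h0, h1, h2]

theorem cutSize_filter {V : List ℕ} {E : CEdges} (hG : IsGraph V (E.map Prod.fst))
    (X : Finset ℕ) (c : Bool) :
    cutSizeL E (V.filter (fun v => decide (v ∈ X))) c = cutSize E X c := by
  unfold cutSizeL cutSize
  congr 1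
  refine List.filter_congr fun e he => ?_
  have h := hG.2.1 e.1 (List.mem_map_of_mem he)
  by_cases h0 : e.2 = c <;> by_cases h1 : e.1.1 ∈ X <;> by_cases h2 : e.1.2 ∈ X <;>
    simp [Crosses, h0, h1, h2, h.1, h.2.1]

/-- the test of a certificate -/
def Chk (q : Inst × List ℕ) : Prop :=
  Valid q.1 ∧ (∀ v ∈ q.2, v ∈ q.1.1.1) ∧ q.1.2.1.1 ∈ q.2 ∧ q.1.2.1.2 ∉ q.2 ∧
    cutSizeL q.1.1.2 q.2 true ≤ q.1.2.2.1 ∧ cutSizeL q.1.1.2 q.2 false ≤ q.1.2.2.2

theorem pp_valid {α : Type} [TEnc α] {f : α → Inst} (hf : NPC.Poly f) :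
    PP (fun a => Valid (f a)) := by
  unfold Valid
  exact PP.and (pp_isGraph (by fun_prop) (by fun_prop)) (PP.and (PP.mem (by fun_prop)
    (by fun_prop)) (PP.and (PP.mem (by fun_prop) (by fun_prop)) (PP.ne (by fun_prop)
    (by fun_prop))))

theorem pp_chk : PP Chk := by
  unfold Chk
  refine PP.and (pp_valid (by fun_prop)) (PP.and ?_ (PP.and (PP.mem (by fun_prop) (by fun_prop))
    (PP.and (PP.not (PP.mem (by fun_prop) (by fun_prop))) (PP.and (PP.le ?_ (by fun_prop))
    (PP.le ?_ (by fun_prop))))))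
  · exact PP.ball (l := fun q : Inst × List ℕ => q.2)
      (r := fun (q : Inst × List ℕ) (v : ℕ) => v ∈ q.1.1.1) (by fun_prop)
      (PP.mem (by fun_prop) (by fun_prop))
  · unfold cutSizeL
    fun_prop
  · unfold cutSizeL
    fun_prop

theorem inNP : InNPP (fun I : Inst => Valid I ∧ HasCut I) := by
  obtain ⟨R, hR, hR'⟩ := pp_chk
  refine inNPP_of hR Polynomial.X fun I => ?_
  simp only [hR', Polynomial.eval_X]
  constructor
  · rintro ⟨hv, X, hX, hs, ht, hr, hb⟩
    refine ⟨I.1.1.filter (fun v => decide (v ∈ X)), ?_, hv, ?_, ?_, ?_, ?_, ?_⟩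
    · refine (sz_filter_le _ _).trans ?_
      obtain ⟨⟨V, E⟩, J⟩ := I
      simp only [sz_pair]
      omega
    · intro v hv'
      exact (List.mem_filter.1 hv').1
    · simp only [List.mem_filter, decide_eq_true_eq]
      exact ⟨hv.2.1, hs⟩
    · simp only [List.mem_filter, decide_eq_true_eq, not_and]
      exact fun _ => ht
    · simp only
      rw [cutSize_filter hv.1]
      exact hr
    · simp only
      rw [cutSize_filter hv.1]
      exact hb
  · rintro ⟨w, -, hv, hw, hs, ht, hr, hb⟩
    simp only at hv hw hs ht hr hb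
    rw [cutSizeL_eq] at hr hb
    refine ⟨hv, w.toFinset, ?_, ?_, ?_, hr, hb⟩
    · intro v hv'
      exact hw v (List.mem_toFinset.1 hv')
    · exact List.mem_toFinset.2 hs
    · exact fun h => ht (List.mem_toFinset.1 h)

/-- A function that decides the problem on the valid instances. -/
def Decides (A : List Bool → List Bool) : Prop := ∀ I, Valid I → (A (bits I) = [true] ↔ HasCut I)

/-- The unweighted red-blue `s`-`t` cut problem in undirected simple graphs is `NP`-complete: the
set of the yes-instances is in `NP`, it is `NP`-hard, and moreover every problem in `NP` is reducible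
to the cut problem by a polynomial-time many-one reduction which only produces valid instances. In
particular, if `P ≠ NP` then no polynomial-time algorithm decides the problem. -/
theorem result :
    InNPP (fun I : Inst => Valid I ∧ HasCut I) ∧
    NPHardP (fun I : Inst => Valid I ∧ HasCut I) ∧
    NPHardOn Valid HasCut ∧
    (PneNP → ¬ ∃ A : List Bool → List Bool, PolyTime A ∧ Decides A) := by
  refine ⟨inNP, npHardP_and hard, hard, ?_⟩
  rintro ⟨L, hL, hL'⟩ ⟨A, hA, hd⟩
  apply hL'
  obtain ⟨g, hg, hgp, hgL⟩ := hard L hL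
  exact ⟨fun x => A (bits (g x)),
    H642R2.TMSim.polyTime_comp (g := A) (f := fun x => bits (g x)) hA hg,
    fun x => (hgL x).trans (hd _ (hgp x)).symm⟩

end Pool.Agent.Results.MP_ad21dd_lc.RedBlueCutNPComplete
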